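import Mathlib
import Pool.Agent.X271.MotBr

/-!
# The motivic monodromy conjecture at all points for compositions with generic coefficients

Let `k ⊂ ℂ` be a field and let `f ∈ k[x_1, …, x_n]` be such that, for some `κ ≥ 0`,
`f(x) + y_1 z_1 + ⋯ + y_κ z_κ` becomes, by an automorphism of the polynomial ring `k[x, y, z]`, a
polynomial `F = ∑_j c_j X ^ (v j) + h` with generic coefficients `c_j` at given exponents (for instance
at the vertices of its Newton polyhedron) and arbitrary further terms `h`. Under a condition on the
facets of this ONE Newton polyhedron we prove the motivic monodromy conjecture for `f`, in its strong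
form (with roots of the Bernstein-Sato polynomial), at all points: one finite set `S` of pairs
`(a, b)`, `a / b` a root of `b_f`, works for the local motivic zeta functions `Z_{f,x}(T)` of `f` at all
points `x` with coordinates in an arbitrary field `K ⊃ k`.

Main case: the compositions `f(x) = Φ(x, p_1(x), …, p_κ(x))` in which `Φ` and the `p_i` have generic
coefficients at given exponents. Such `f` (for instance all `x ^ u ∏ p_i ^ (e_i)`, sums of such
products, and `p(x) ^ 2 + q(x) ^ 3`) are in general degenerate with respect to their Newton polyhedra in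
all coordinates, not reduced, and their singularities are not isolated. The theorem for generic
coefficients (`GenericCoefficients` of this problem) does not apply to them, and the theorem for
affinely independent exponents (`StablySparse`) is a very different case.

Method. The zeta function of `f` is an explicit combination of those of `F` and of `F + y z` (from
`StablySparse`). For `F` the theorem for generic coefficients is refined: the denominator of
`(1 - 𝕃⁻¹ T) Z_F(T)` contains only the factors `1 - 𝕃 ^ (- |a|) T ^ (N_a)` of the facets `a` such that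
`-|a| / N_a` is a root of every functional equation of `F`, if the facets of its level are simplices or B1
in one direction. The normal fan of `F + y z` is computed: its rays are `(a, N_a, 0)` and `(a, 0, N_a)`,
its levels go up by one, and simplices and B1-facets in one common direction are preserved (a
direction which depends on the vertex would not be enough, because all the new facets contain `y z`).
Non-B1 simplices become B1 in `F + y z`; their levels are roots by the functional equation of `F`
itself. The coefficient of `y z` is made generic by an automorphism of the torus. Finally a functional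
equation of `f` with `b(s) = (s + 1) c(s)` gives those of `F` and `F + y z` with `(s + 1) c(s + κ)`,
`(s + 1) c(s + κ + 1)`.
-/

set_option autoImplicit false

namespace Pool.Agent.Results.MP_b91a16_ag.GenericCompositions

open MvPolynomial Pool.Agent.W428.MOT Pool.Agent.X271.MD Pool.Agent.TH216.HD
open Pool.Agent.W375.MG (zetaG Good)

/-- The strong form of the motivic monodromy conjecture for `f` at all points, with the finite set `S`
of pairs `(a, b)` of integers: `b > 0` and `a / b` is a root of every polynomial `b` with
`b(s) f ^ s = P(s) f ^ (s + 1)`, `P(s)` a differential operator in the Weyl algebra, polynomial in `s`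
(`IsBFunction`), in particular of the Bernstein-Sato polynomial of `f`; and for every field `K ⊃ k`
and every point `x` with coordinates in `K` the local motivic zeta function
`zeta f x = ∑_{N ≥ 1} [X_{N,1,x}] 𝕃 ^ (-n N) T ^ N` is in the ring `ratRing K S` generated over
`K₀(Var_K)[𝕃⁻¹]` by `T` and the `1 / (1 - 𝕃 ^ a T ^ b)`, `(a, b) ∈ S`. The same holds for the zeta
functions `zetaG f W E` of the jets with origin in a constructible set `W` for which the leading
coefficient of `f` is in a constructible set `E` of nonzero numbers. -/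
def StrongMC {k : Type} [Field k] [Algebra k ℂ] {n : ℕ} (f : MvPolynomial (Fin n) k)
    (S : Finset (ℤ × ℤ)) : Prop :=
  (∀ p ∈ S, 0 < p.2 ∧ ∀ b : Polynomial ℂ,
    Pool.Agent.H628R4.TP.IsBFunction (map (algebraMap k ℂ) f) b →
      b.eval ((p.1 : ℂ) / p.2) = 0) ∧
  ∀ (K : Type) [Field K] [Algebra k K],
    (∀ x : Fin n → K, zeta (map (algebraMap k K) f) x ∈ ratRing K S) ∧
    ∀ (W : Set (Pt K (Fin n))) (E : Set (AlgebraicClosure K)), Constr W → Good E →
      zetaG (map (algebraMap k K) f) W E ∈ ratRing K S

/-- **The motivic monodromy conjecture (Bernstein-Sato form) at all points for stably generic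
polynomials and for compositions with generic coefficients.**

`InPoly v w`: `w` is in the Newton polyhedron `conv {v j} + ℝ_{≥ 0} ^ N`. `IsRay v a`: `a` spans a ray of the
normal fan of this polyhedron; `ordA v a = N_a = min_j ⟨a, v j⟩`; `lev v a = |a| / N_a`.

`HypC v h`: for every ray `a` with `N_a > 0` one of the following holds:
* `|a| / N_a = |a'| / N_{a'}` for some `a' ∈ ℕ ^ N` with `N_{a'} > 0` and `NonB1 v False a'`: there is a set
  `J` of `#{i | a' i ≠ 0}` elements with `⟨a', v j⟩ = N_{a'}` for `j ∈ J` such that the vectors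
  `(v j i)_{a' i ≠ 0}`, `j ∈ J`, are linearly independent and such that no variable `x_i` with
  `a' i ≠ 0` occurs in exactly one of the monomials `x ^ (v j)`, `j ∈ J`, and there with exponent `1`;
* `LocC v h σ`, `σ = |a| / N_a`: there is a variable `x_i` such that every ray `a'` with `N_{a'} > 0` and
  `|a'| / N_{a'} = σ` is a simplex (`Simp v h a'`: the vectors `(v j i)_{a' i ≠ 0}`, for the `j` with
  `⟨a', v j⟩ = N_{a'}`, are linearly independent, and the exponents of `h` in this face are in the
  convex hull of the `v j`) or B1 in the direction `i` (`B1Dir v h i a'`: `a' i ≠ 0`, and exactly one of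
  the monomials of `v` and `h` of minimal `a'`-weight is divisible by `x_i`; it is some `x ^ (v j0)` with
  `v j0 i = 1`).

First part (stably generic polynomials). Let the `v j ≠ 0` be different, let the exponents of `h` be
in the Newton polyhedron of the `v j`, and let `HypC v h` hold. There is `g ≠ 0` such that for all
coefficients `c_j ∈ k` with `g(c) ≠ 0`: if `f` is non-constant and `φ` is an automorphism of `k[x, y, z]`
with `φ(f + ∑_{i ≤ κ} y_i z_i) = ∑_j c_j X ^ (v j) + h`, and there is no facet with `|a| = N_a > 0`, then
`StrongMC f S` for a finite set `S`.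

Second part (compositions). Let exponents `m_j` of monomials in `x_1, …, x_n, z_1, …, z_κ` be given,
`j = 1, …, r`, in groups `π j ∈ {0, …, κ}`, `κ ≥ 1`, different in each group, nonzero in the group
`0`, and polynomials `H_0, …, H_κ` over `k`, where the exponents of `H_i` are in the Newton polyhedron
of the `m_j` with `π j = i` or `π j = 0` (`InPolyG π m i`). For `a ∈ k ^ r` let
`tup π m a H i = ∑_{π j = i} a_j X ^ (m_j) + H_i`. `exps π m` are the exponents `m_j`, `π j = 0`, and
`y_i m_j`, `π j = i`, of `Φ + ∑ y_i l_i`, and `sumH H = H_0 + ∑ y_i H_i`. If `HypC (exps π m) (sumH H)` holds then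
there is `g ≠ 0` such that for all `a ∈ k ^ r` with `g(a) ≠ 0`: let `Φ = tup π m a H 0` and
`tup π m a H i = c_i z_i - p_i(x)`, `c_i ≠ 0`, for `i = 1, …, κ`; if
`f(x) = Φ(x, p_1(x) / c_1, …, p_κ(x) / c_κ)` is not constant, then `StrongMC f S` for a finite set `S` of
pairs `(a, b)` with `a < 0 < b`. -/
theorem result (k : Type) [Field k] [Algebra k ℂ] {n κ r : ℕ} (hr : 0 < r) :
    (∀ v : Fin r → Fin (n + (κ + κ)) → ℕ, Function.Injective v → (∀ j, v j ≠ 0) →
      ∀ h : MvPolynomial (Fin (n + (κ + κ))) k, (∀ w ∈ h.support, InPoly v w) → HypC v h →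
      ∃ g : MvPolynomial (Fin r) k, g ≠ 0 ∧ ∀ c : Fin r → k, eval c g ≠ 0 →
      ∀ f : MvPolynomial (Fin n) k, f.totalDegree ≠ 0 →
      ∀ φ : MvPolynomial (Fin (n + (κ + κ))) k ≃ₐ[k] MvPolynomial (Fin (n + (κ + κ))) k,
      φ (stab f κ) = (∑ j, C (c j) * ∏ i, X i ^ v j i) + h →
      (∀ a : Fin (n + (κ + κ)) → ℕ, IsRay v a → 0 < ordA v a → ∑ i, a i ≠ ordA v a) →
      ∃ S : Finset (ℤ × ℤ), StrongMC f S) ∧
    (0 < κ → ∀ (π : Fin r → Fin (κ + 1)) (m : Fin r → Fin (n + κ) → ℕ),
      (∀ j j', π j = π j' → m j = m j' → j = j') → (∀ j, π j = 0 → m j ≠ 0) →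
      ∀ H : Fin (κ + 1) → MvPolynomial (Fin (n + κ)) k,
      (∀ i, ∀ w ∈ (H i).support, InPolyG π m i w) → HypC (exps π m) (sumH H) →
      ∃ g : MvPolynomial (Fin r) k, g ≠ 0 ∧ ∀ a : Fin r → k, eval a g ≠ 0 →
      ∀ (c : Fin κ → k) (p : Fin κ → MvPolynomial (Fin n) k), (∀ i, c i ≠ 0) →
      (∀ i : Fin κ, tup π m a H i.succ = C (c i) * X (Fin.natAdd n i) -
        rename (Fin.castAdd κ) (p i)) →
      ∀ f : MvPolynomial (Fin n) k,
      f = aeval (Fin.append X fun i => C (c i)⁻¹ * p i) (tup π m a H 0) → f.totalDegree ≠ 0 →
      ∃ S : Finset (ℤ × ℤ), (∀ p ∈ S, p.1 < 0) ∧ StrongMC f S) := by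
  refine ⟨fun v hv hv0 h hh hC => ?_, fun hκ π m hinj hm H hH hC => ?_⟩
  · obtain ⟨g, hg, hgc⟩ := stable hr v hv hv0 h hh hC
    refine ⟨g, hg, fun c hc f hf φ hφ h1 => ?_⟩
    obtain ⟨S, hS, hz⟩ := hgc c hc f hf φ hφ h1
    exact ⟨S, hS, fun K _ _ =>
      ⟨fun x => Pool.Agent.W425.MM.zeta_mem _ x S fun W E hW hE => hz K W E hW hE,
        fun W E hW hE => hz K W E hW hE⟩⟩
  · obtain ⟨g, hg, hgc⟩ := comps hr hκ π m hinj hm H hH hC
    refine ⟨g, hg, fun a ha c p hc hl f hff hf => ?_⟩
    obtain ⟨S, hS, hz⟩ := hgc a ha c p hc hl f hff hf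
    exact ⟨S, fun p hp => (hS p hp).1, fun p hp => (hS p hp).2, fun K _ _ =>
      ⟨fun x => Pool.Agent.W425.MM.zeta_mem _ x S fun W E hW hE => hz K W E hW hE,
        fun W E hW hE => hz K W E hW hE⟩⟩

end Pool.Agent.Results.MP_b91a16_ag.GenericCompositions
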