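import Mathlib
import Pool.Agent.X271.RefThm

/-!
# The motivic monodromy conjecture at all points: reduction to cubics

Let `k` be a subfield of `ℂ`. We prove that the motivic monodromy conjecture at all points, in its
strong form and with the refinement that the factor `1 - 𝕃⁻¹ T` of the smooth points is separated, for
all polynomials over `k` (all degrees, all numbers of variables) is EQUIVALENT to the same statement
for the cubic polynomials `x_0 + ∑_j t_j q_j(x)` with `q_j` of degree at most two, that is, for
coordinate functions restricted to intersections of quadrics. It implies the conjecture Q1 for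
all polynomials over `k`.

Refined property of `f`: there is one finite set `S` of pairs `(a, b)`, `a / b` a root of
`b_f(s) / (s + 1)`, such that for every field `K ⊃ k` and all constructible sets of origins `W ⊂ 𝔸 ^ n_K` and
of leading coefficients `E` the series `(1 - 𝕃⁻¹ T) Z_{f,W,E}(T)` is in the ring generated by `T` and
the `1 / (1 - 𝕃 ^ a T ^ b)`, `(a, b) ∈ S`. (By the strong monodromy conjecture with the orders of the
poles, at `-1`.) The separation of the factor is needed because `K₀(Var)[𝕃⁻¹]` is not a domain: a pole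
cannot be moved by division.

Method. Every polynomial `f` becomes such a cubic by adding products `y_i z_i` of new variables and
an automorphism of the polynomial ring (moves `F ↦ F + (y - a)(z + e)`). The zeta function of `f` is
an explicit combination of those of `f + y z` and of `f + y z + y' z'`, for every `W` and `E`, without
resolution of singularities and without division; and a functional equation of `f` with
`b(s) = (s + 1) c(s)` gives one of `f + y z` with `(s + 1) c(s + 1)`.
-/

set_option autoImplicit false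

namespace Pool.Agent.Results.MP_b91a16_ag.ReductionToCubics

open MvPolynomial Pool.Agent.W428.MOT Pool.Agent.X271.RD
open Pool.Agent.W375.MG (zetaG Good)

/-- The strong form of the motivic monodromy conjecture for `f` at all points, with the finite set `S`
of pairs `(a, b)` of integers: `b > 0` and `a / b` is a root of every polynomial `b` with
`b(s) f ^ s = P(s) f ^ (s + 1)`, `P(s)` a differential operator in the Weyl algebra, polynomial in `s`
(`IsBFunction`), in particular of the Bernstein-Sato polynomial of `f`; and for every field `K ⊃ k`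
and every point `x` with coordinates in `K` the local motivic zeta function
`zeta f x = ∑_{N ≥ 1} [X_{N,1,x}] 𝕃 ^ (-n N) T ^ N` is in the ring `ratRing K S` generated over
`K₀(Var_K)[𝕃⁻¹]` by `T` and the `1 / (1 - 𝕃 ^ a T ^ b)`, `(a, b) ∈ S`. -/
def StrongMC {k : Type} [Field k] [Algebra k ℂ] {n : ℕ} (f : MvPolynomial (Fin n) k)
    (S : Finset (ℤ × ℤ)) : Prop :=
  (∀ p ∈ S, 0 < p.2 ∧ ∀ b : Polynomial ℂ,
    Pool.Agent.H628R4.TP.IsBFunction (map (algebraMap k ℂ) f) b →
      b.eval ((p.1 : ℂ) / p.2) = 0) ∧
  ∀ (K : Type) [Field K] [Algebra k K] (x : Fin n → K),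
    zeta (map (algebraMap k K) f) x ∈ ratRing K S

/-- The refined property of `f`: there is a finite set `S` of pairs `(a, b)` with `b > 0` and `a / b` a
root of `b_f(s) / (s + 1)` (`RedRoot`: a root of every `c` for which `(s + 1) c(s)` satisfies a functional
equation for `f`), such that for every field `K ⊃ k`, every constructible set `W` of origins and every
constructible set `E` of nonzero numbers `(1 - 𝕃⁻¹ T) zetaG f W E` is in `ratRing K S`; here
`zetaG f W E = ∑_N [{ψ : ψ(0) ∈ W, f(ψ) = α T ^ N mod T ^ (N + 1), α ∈ E}] 𝕃 ^ (-n N) T ^ N`. -/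
def Refined {k : Type} [Field k] [Algebra k ℂ] {n : ℕ} (f : MvPolynomial (Fin n) k) : Prop :=
  ∃ S : Finset (ℤ × ℤ), (∀ p ∈ S, 0 < p.2 ∧ RedRoot f ((p.1 : ℂ) / p.2)) ∧
    ∀ (K : Type) [Field K] [Algebra k K] (E : Set (AlgebraicClosure K)), Good E →
      ∀ W : Set (Pt K (Fin n)), Constr W →
        fac K * zetaG (map (algebraMap k K) f) W E ∈ ratRing K S

/-- **The motivic monodromy conjecture at all points: transfer and reduction to cubics.**

* Part 1. If a non-constant polynomial `f` over `k` has the refined property, then `StrongMC f S` for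
  some finite `S`.
* Part 2 (transfer). Let `F₁` be `f(x) + ∑_{i ≤ κ} y_i z_i` (`stab f κ`) and `F₂` be
  `f(x) + ∑_{i ≤ κ + 1} y_i z_i` after automorphisms of the polynomial rings. If `F₁` and `F₂` have the
  refined property, then the non-constant polynomial `f` has it.
* Part 3. The refined property of all non-constant polynomials over `k` is equivalent to the refined
  property of the cubics `cubic q = x_0 + ∑_j t_j q_j(x)`, `x = (x_0, …, x_n)`, `deg q_j ≤ 2`. -/
theorem result (k : Type) [Field k] [Algebra k ℂ] :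
    (∀ (n : ℕ) (f : MvPolynomial (Fin n) k), f.totalDegree ≠ 0 → Refined f →
      ∃ S : Finset (ℤ × ℤ), StrongMC f S) ∧
    (∀ (n κ : ℕ) (f : MvPolynomial (Fin n) k), f.totalDegree ≠ 0 →
      ∀ (Φ₁ : MvPolynomial (Fin (n + (κ + κ))) k ≃ₐ[k] MvPolynomial (Fin (n + (κ + κ))) k)
        (Φ₂ : MvPolynomial (Fin (n + (κ + 1 + (κ + 1)))) k ≃ₐ[k]
          MvPolynomial (Fin (n + (κ + 1 + (κ + 1)))) k),
      Refined (Φ₁ (stab f κ)) → Refined (Φ₂ (stab f (κ + 1))) → Refined f) ∧
    ((∀ (n : ℕ) (f : MvPolynomial (Fin n) k), f.totalDegree ≠ 0 → Refined f) ↔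
      ∀ (n l : ℕ) (q : Fin l → MvPolynomial (Fin (n + 1)) k), (∀ j, (q j).totalDegree ≤ 2) →
        Refined (cubic q)) := by
  classical
  have hR : ∀ (n : ℕ) (f : MvPolynomial (Fin n) k),
      Refined f ↔ Pool.Agent.X271.RC.Ref True (fun K _ _ E => Good E) n f := by
    intro n f
    constructor
    · rintro ⟨S, hS, hz⟩
      exact ⟨S, hS, fun K _ _ E hE W hW _ => hz K E hE W hW⟩
    · rintro ⟨S, hS, hz⟩
      exact ⟨S, hS, fun K _ _ E hE W hW => hz K E hE W hW (Or.inl trivial)⟩
  have h𝒦 : ∀ (K : Type) [Field K] [Algebra k K] (E : Set (AlgebraicClosure K)),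
      Good E → Pool.Agent.Y229.MS.CE E := fun K _ _ E hE => Pool.Agent.Y229.MS.ce_good hE
  refine ⟨fun n f hf h => ?_, fun n κ f hf Φ₁ Φ₂ h1 h2 => ?_, ?_⟩
  · obtain ⟨S, hS, hz⟩ := h
    refine ⟨insert (-1, 1) S, fun p hp => ?_, fun K _ _ x => ?_⟩
    · rcases Finset.mem_insert.1 hp with rfl | hp
      · refine ⟨by norm_num, fun b hb => ?_⟩
        have h1 := (Pool.Agent.X271.RC.root_of_red hf hb).1
        have h2 : (((-1 : ℤ) : ℂ) / ((1 : ℤ) : ℂ)) = -1 := by norm_num
        simp only [h2]
        exact h1
      · exact ⟨(hS p hp).1, fun b hb => (Pool.Agent.X271.RC.root_of_red hf hb).2 _ (hS p hp).2⟩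
    · refine Pool.Agent.W425.MM.zeta_mem _ x _ fun W E hW hE => ?_
      have h1 := Pool.Agent.Y229.MS.zeta_of_fst _ W E _ (hz K E hE W hW)
      rwa [Finset.coe_insert]
  · rw [hR] at h1 h2 ⊢
    exact Pool.Agent.X271.RC.transfer
      (fun n f => Pool.Agent.X271.RC.Ref True (fun K _ _ E => Good E) n f)
      (fun a b Φ hab g hg => Pool.Agent.X271.RC.ref_iso h𝒦 hab Φ hg)
      (fun n f hf h1 h2 => Pool.Agent.X271.RC.ref_desc h𝒦 hf h1 h2) f hf κ Φ₁ Φ₂ h1 h2
  · simp only [hR]
    exact Pool.Agent.X271.RC.ref_cubic h𝒦

end Pool.Agent.Results.MP_b91a16_ag.ReductionToCubics
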